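import Pool.Agent.H40.CT.Trans

/-!
# Injectivity for open varieties and the Bloch-Beilinson conjecture: an exact comparison

Everything is over the algebraic numbers, with rational coefficients, all codimensions together. The
definitions are in the file `Pool/Agent/H40/CT/Stm.lean`: `Cohomology` with `Axioms` is what is used
of Chow groups `A`, absolute Hodge cohomology `D` and Betti cohomology `H` of smooth projective
connected varieties, `IsCell` what is used of products of Grassmannians, `Opens` with `Localization`
what is used of open subvarieties.
-/

open CategoryTheory CartesianMonoidalCategory

universe u v w

namespace Pool.Agent.Results.MP_537ea0_ag.Comparison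

open Pool.Agent.H40.CT.Stm

/-- Equivalent are:

1. the cycle class maps to absolute Hodge cohomology of all open varieties are injective;
2. for every correspondence `g` from `Z` to `X`, a cycle class on `X` which is the image under `g` of
  an absolute Hodge class on `Z` is the image under `g` of a cycle class on `Z`;
3. the cycle class maps of all projective varieties are injective, numerically trivial classes are
  homologically trivial, and homologically trivial correspondences never send an absolute Hodge
  class orthogonal to all cycle classes to a nonzero cycle class;
4. numerically trivial classes are homologically trivial, and if a homologically trivial
  correspondence kills an absolute Hodge class `d`, then it kills an algebraic correspondence which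
  fixes `d` up to homological equivalence;
5. the same as 4, for all correspondences. -/
theorem result {𝒱 : Type u} [Category.{v} 𝒱] [CartesianMonoidalCategory 𝒱]
    (S : Cohomology.{u, v, w} 𝒱) (hS : S.Axioms) (cell : 𝒱 → Prop) (hC : IsCell S cell)
    (O : Opens S) (hO : O.Localization) :
    List.TFAE [Q1 O, Strict S, BlochBeilinson S ∧ ConjectureD S ∧ Invisible S,
      ConjectureD S ∧ Kernel S, ConjectureD S ∧ KernelAll S] :=
  main S hS cell hC O hO

end Pool.Agent.Results.MP_537ea0_ag.Comparison
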