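import Pool.Agent.H71.K3P.Cor

/-! # MP_537ea0_ag : zero-cycles on the square of an elliptic K3 surface

`W : y^2 = x^3 + a x + b` in `ℙ(1,1,4,6)`, `a`, `b` binary forms of degrees 8 and 12.  Voisin's conjecture on zero-cycles for
elliptic K3 surfaces: `(P - P') × (Q - Q') = (Q - Q') × (P - P')` in the Chow group of zero-cycles of `W × W`, up to torsion;
the quotient of `W × W` by `ι (P, Q) = (Q, -P)` has trivial Chow group of zero-cycles up to torsion. -/

namespace H71.Old.EllipticK3Swap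

open H67.KH

/-- Let `K` be an algebraically closed field of characteristic zero, `a`, `b` binary forms of degrees 8, 12 over `K` such that the form
`-4 a^3 - 27 b^2` is not zero and has two non-proportional zeros, `W : y^2 = x^3 + a x + b`.
(1) For all points `P, P', Q, Q'` of `W` the cycle `576 ((P - P') × (Q - Q') - (Q - Q') × (P - P'))` is rationally equivalent to
zero on `W × W`.
(2) For all points `P, Q` of `W` the cycle `288 ((P, Q) + (Q, -P) + (-P, -Q) + (-Q, P) - 4 (o, o))` is rationally equivalent to zero.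
(3) For all points `P, Q` of `W` in the same fibre over `(1 : t)` the cycle `1152 (P - o) × (Q - o)` is rationally equivalent to zero. -/
theorem result (K : Type) [Field K] [IsAlgClosed K] [CharZero K] (a b : MvPolynomial (Fin 2) K)
    (ha : a.IsHomogeneous 8) (hb : b.IsHomogeneous 12) (hD : disc a b ≠ 0) (u0 u1 v0 v1 : K)
    (huv : u0 * v1 ≠ u1 * v0) (hu : ev (disc a b) u0 u1 = 0) (hv : ev (disc a b) v0 v1 = 0) :
    (∀ P P' Q Q' : Pt K, OnW a b P → OnW a b P' → OnW a b Q → OnW a b Q' →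
      576 • (prod P P' Q Q' - prod Q Q' P P') ∈ RatEq a b) ∧
    (∀ P Q : Pt K, OnW a b P → OnW a b Q →
      288 • (pt P Q + pt Q P.neg + pt P.neg Q.neg + pt Q.neg P - 4 • pt (o K) (o K)) ∈ RatEq a b) ∧
    (∀ t x y x' y' : K, OnW a b (⟨1, t, x, y⟩ : Pt K) → OnW a b (⟨1, t, x', y'⟩ : Pt K) →
      1152 • prod (⟨1, t, x, y⟩ : Pt K) (o K) ⟨1, t, x', y'⟩ (o K) ∈ RatEq a b) :=
  ⟨fun _ _ _ _ hP hP' hQ hQ' => main ha hb hD huv hu hv hP hP' hQ hQ',
    fun _ _ hP hQ => H71.K3P.orbit ha hb hD huv hu hv hP hQ,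
    fun _ _ _ _ _ hP hQ => H71.K3P.fibre ha hb hD huv hu hv hP hQ⟩

end H71.Old.EllipticK3Swap
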