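import Pool.Agent.H71.ZD.Up2

/-!
# The strong conjecture for `(X, f)` is the classical conjecture for the linear skew products
over `(X, f)`

Definitions (files `Pool/Agent/H71/ZD/Defs.lean`, `Skew.lean`, `Segre.lean`):

* `PV k`: irreducible projective varieties over `k` (closure in `ℙ^ι` of a generic point `[s]`, with
  `s b = 1`, generating the function field `K`); `PV.IsPoint`, `Sends` (the rational map is defined
  at `p` with value `p'`), `IsOrbit`, `IsDense`, `NoInvariants` (`k(X)^f = k`);
* `StrongZDO X φ`: every nonempty basic open set contains a well-defined dense orbit;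
  `ClassicalZDO X φ`: there is a well-defined dense orbit;
* `prodP1 X`, `skew X φ h hh`: the variety `X × ℙ¹` (Segre embedding) with the linear skew product
  `(x, t) ↦ (f(x), h(x) t)`.
-/

set_option autoImplicit false

namespace Pool.Agent.Results.MP_1e7cf3_ag.LinearSkewProducts

open Pool.Agent.H71.ZD

universe u

/-- For every dominant rational self-map `f` of an irreducible projective variety `X` over a field
`k` of characteristic `0` with `k(X)^f = k`: the conclusion of the strong conjecture holds for
`(X, f)` if and only if the conclusion of the classical conjecture holds for every skew product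
`(x, t) ↦ (f(x), h(x) t)` on `X × ℙ¹` that has no non-constant invariant rational function. -/
theorem result (k : Type u) [Field k] [CharZero k] (X : PV k) (φ : X.K →ₐ[k] X.K)
    (hφ : NoInvariants X φ) :
    StrongZDO X φ ↔ ∀ (h : X.K) (hh : h ≠ 0), NoInvariants (prodP1 X) (skew X φ h hh) →
      ClassicalZDO (prodP1 X) (skew X φ h hh) :=
  ⟨fun hst h hh hno => classical_of_strong X φ hst h hh hno, fun hcl =>
    strong_of_classical X φ hφ hcl⟩

end Pool.Agent.Results.MP_1e7cf3_ag.LinearSkewProducts
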